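import Pool.Agent.W525.CB.Stm

set_option autoImplicit false

namespace Pool.Agent.W409.CB

open Pool.Agent.W525.CB Module

theorem card_le {k L : Type} [Field k] [Field L] [Algebra k L] (S : Finset L)
    (hS : IntermediateField.adjoin k (S : Set L) = ⊤) [FiniteDimensional L (Ω[L⁄ℤ])] :
    Algebra.trdeg k L ≤ (finrank L (Ω[L⁄ℤ]) : Cardinal) := by
  classical
  have hsp : Submodule.span L (Set.range (KaehlerDifferential.D ℤ L)) = ⊤ :=
    KaehlerDifferential.span_range_derivation ℤ L
  obtain ⟨f, hf, hfs, -⟩ := Submodule.exists_fun_fin_finrank_span_eq L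
    (Set.range (KaehlerDifferential.D ℤ L))
  choose g hg using hf
  have hfr : finrank L (Submodule.span L (Set.range (KaehlerDifferential.D ℤ L))) =
      finrank L (Ω[L⁄ℤ]) := by
    rw [hsp]; exact finrank_top L _
  have hess : Algebra.EssFiniteType k L := IntermediateField.fg_top_iff.1 ⟨S, hS⟩
  let K0 := IntermediateField.adjoin k (Set.range g)
  have hess0 : Algebra.EssFiniteType K0 L := Algebra.EssFiniteType.of_comp k K0 L
  have hsub : Subsingleton (Ω[L⁄K0]) := by
    have h0 : KaehlerDifferential.map ℤ K0 L L = 0 := by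
      have h1 : (⊤ : Submodule L (Ω[L⁄ℤ])) ≤ LinearMap.ker (KaehlerDifferential.map ℤ K0 L L) := by
        rw [← hsp, ← hfs, Submodule.span_le]
        rintro _ ⟨i, rfl⟩
        rw [← hg i, SetLike.mem_coe, LinearMap.mem_ker, KaehlerDifferential.map_D]
        have h2 : algebraMap L L (g i) = algebraMap K0 L
            ⟨g i, IntermediateField.subset_adjoin k _ ⟨i, rfl⟩⟩ := rfl
        rw [h2]
        exact Derivation.map_algebraMap _ _
      exact LinearMap.ker_eq_top.1 (top_le_iff.1 h1)
    refine ⟨fun a b => ?_⟩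
    obtain ⟨a', rfl⟩ := KaehlerDifferential.map_surjective ℤ K0 L a
    obtain ⟨b', rfl⟩ := KaehlerDifferential.map_surjective ℤ K0 L b
    rw [h0]; rfl
  have hunr : Algebra.FormallyUnramified K0 L := ⟨hsub⟩
  have hfin : Module.Finite K0 L := Algebra.FormallyUnramified.finite_of_free K0 L
  have halg : Algebra.IsAlgebraic K0 L := Algebra.IsAlgebraic.of_finite K0 L
  have halg2 : Algebra.IsAlgebraic (Algebra.adjoin k (Set.range g)) L := by
    exact IntermediateField.isAlgebraic_adjoin_iff_top.1 halg
  have h := Algebra.IsAlgebraic.trdeg_le_cardinalMk k (Set.range g)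
  refine h.trans ?_
  refine Cardinal.mk_range_le.trans ?_
  rw [Cardinal.mk_fin, hfr]

theorem main : S_DIM := by
  intro k _ _ p _ _ L _ _ S hS ι _ v hι hv
  have hfd : FiniteDimensional L (Ω[L⁄ℤ]) :=
    ⟨⟨(Set.range v).toFinite.toFinset, by simpa using hv⟩⟩
  refine linearIndependent_of_top_le_span_of_card_le_finrank hv.ge ?_
  exact_mod_cast hι.trans (card_le S hS)

end Pool.Agent.W409.CB
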